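import Pool.Agent.BICS.Base
import Pool.Agent.Helper34.BIC.Tutte

/-!
# Row B6 of T*: the loopless principle and the number of components
-/

open Set BIC BICS
open scoped Matroid

namespace TSTB6

variable {α : Type*}

/-- Duality: `c` is spanned by the complement of `X` in the dual iff it is not spanned by `X`. -/
theorem notMem_closure_of_dual {N : Matroid α} [N.Finite] {X : Set α} {c : α} (hX : X ⊆ N.E)
    (hc : c ∈ N.E) (hcX : c ∉ X) (h : c ∈ N✶.closure (N.E \ insert c X)) : c ∉ N.closure X := by
  intro hcl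
  have h1 : rk N✶ (insert c (N.E \ insert c X)) = rk N✶ (N.E \ insert c X) := by
    have h2 := rk_closure (M := N✶) (N.E \ insert c X)
    refine le_antisymm ?_ (rk_mono _ (subset_insert _ _))
    rw [← h2]
    refine rk_mono _ (insert_subset h ?_)
    exact N✶.subset_closure _ (by rw [Matroid.dual_ground]; exact sdiff_subset)
  have e1 : insert c (N.E \ insert c X) = N.E \ X := by
    ext x
    simp only [mem_insert_iff, mem_sdiff, not_or]
    constructor
    · rintro (rfl | ⟨h1, _, h2⟩)
      · exact ⟨hc, hcX⟩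
      · exact ⟨h1, h2⟩
    · rintro ⟨h1, h2⟩
      by_cases hx : x = c
      · exact Or.inl hx
      · exact Or.inr ⟨h1, hx, h2⟩
  rw [e1] at h1
  have h2 := rk_dual (M := N) (X := N.E \ X) sdiff_subset
  have h3 := rk_dual (M := N) (X := N.E \ insert c X) sdiff_subset
  rw [sdiff_sdiff_cancel_left hX] at h2
  rw [sdiff_sdiff_cancel_left (insert_subset hc hX)] at h3
  have h4 : rk N (insert c X) = rk N X := by
    refine le_antisymm ?_ (rk_mono _ (subset_insert _ _))
    rw [← rk_closure (M := N) X]
    exact rk_mono _ (insert_subset hcl (N.subset_closure X hX))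
  have h5 : (N.E \ X).ncard = (N.E \ insert c X).ncard + 1 := by
    rw [← e1, ncard_insert_of_notMem _ (N.ground_finite.subset sdiff_subset)]
    simp
  omega

/-- **LOOPLESS PRINCIPLE.**  `N = (M / A) | R`; if `c` is no coloop of `N* | (R \ X)`, then `c` is
not in the closure of `A ∪ X`.  (`A = D ∪ (S \ R)`, `X = (S ∩ R) \ C_b`.) -/
theorem loopless {M : Matroid α} [M.Finite] {A R X : Set α} {c : α} (hR : R ⊆ M.E \ A)
    (hX : X ⊆ R) (hc : c ∈ R) (hcX : c ∉ X)
    (h : c ∈ ((M ／ A) ↾ R)✶.closure (R \ insert c X)) : c ∉ M.closure (A ∪ X) := by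
  have hfin : ((M ／ A) ↾ R).Finite := by
    refine ⟨?_⟩
    rw [Matroid.restrict_ground_eq]
    exact M.ground_finite.subset (hR.trans sdiff_subset)
  have h1 := notMem_closure_of_dual (N := (M ／ A) ↾ R) (X := X) (c := c)
    (by rw [Matroid.restrict_ground_eq]; exact hX) (by rw [Matroid.restrict_ground_eq]; exact hc)
    hcX (by rw [Matroid.restrict_ground_eq]; exact h)
  intro hcl
  apply h1
  rw [Matroid.restrict_closure_eq _ hX (show R ⊆ (M ／ A).E by
    rw [Matroid.contract_ground]; exact hR)]
  refine ⟨?_, hc⟩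
  rw [Matroid.contract_closure_eq]
  exact ⟨by rwa [union_comm] at hcl, (hR hc).2⟩

/-- In the situation of the tiles: `S` the row side, `R` the column side, `D` contracted for the
column side, `Cb` the conflicts of one tile. -/
theorem loopless_tile {M : Matroid α} [M.Finite] {D S R Cb : Set α} {c : α}
    (hRE : R ⊆ M.E) (hDR : Disjoint D R) (hCb : Cb ⊆ S ∩ R) (hc : c ∈ Cb)
    (h : c ∈ ((M ／ (D ∪ (S \ R))) ↾ R)✶.closure (((R \ S) ∪ Cb) \ {c})) :
    c ∉ M.closure (D ∪ (S \ Cb)) := by
  have h1 := loopless (M := M) (A := D ∪ (S \ R)) (R := R) (X := (S ∩ R) \ Cb) (c := c) ?_ ?_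
    (hCb hc).2 (fun h' => h'.2 hc) ?_
  · intro h2
    refine h1 (M.closure_subset_closure ?_ h2)
    rintro x (hx | hx)
    · exact Or.inl (Or.inl hx)
    · by_cases hxR : x ∈ R
      · exact Or.inr ⟨⟨hx.1, hxR⟩, hx.2⟩
      · exact Or.inl (Or.inr ⟨hx.1, hxR⟩)
  · intro x hx
    refine ⟨hRE hx, ?_⟩
    rintro (h2 | h2)
    · exact disjoint_left.1 hDR h2 hx
    · exact h2.2 hx
  · exact fun x hx => hx.1.2
  · have e1 : R \ insert c ((S ∩ R) \ Cb) = ((R \ S) ∪ Cb) \ {c} := by
      ext x
      simp only [mem_sdiff, mem_insert_iff, mem_inter_iff, mem_union, mem_singleton_iff, not_or,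
        not_and, not_not]
      constructor
      · rintro ⟨h2, h3, h4⟩
        by_cases hxS : x ∈ S
        · exact ⟨Or.inr (h4 ⟨hxS, h2⟩), h3⟩
        · exact ⟨Or.inl ⟨h2, hxS⟩, h3⟩
      · rintro ⟨h2 | h2, h3⟩
        · exact ⟨h2.1, h3, fun h4 => absurd h4.1 h2.2⟩
        · exact ⟨(hCb h2).2, h3, fun _ => h2⟩
    rw [e1]
    exact h

/-! ### The number of components -/

/-- The graph of the honest elements. -/
def hG {V : Type*} (H : Finset α) (ends : α → Sym2 V) : SimpleGraph V where
  Adj x y := x ≠ y ∧ ∃ e ∈ H, ends e = s(x, y)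
  symm := ⟨fun _ _ h => ⟨h.1.symm, h.2.imp fun e he => ⟨he.1, by rw [he.2, Sym2.eq_swap]⟩⟩⟩
  loopless := ⟨fun _ h => h.1 rfl⟩

open Classical in
/-- **COUNT.**  `H` independent, every element has both ends in one component, no component has
full rank: the number of components is at most `|V| - |H|`. -/
theorem count {V : Type*} [Fintype V] {M : Matroid α} (H : Finset α) (ends : α → Sym2 V)
    (hI : M.Indep (H : Set α))
    (hcomp : ∀ c : (hG H ends).ConnectedComponent,
      M.eRk {e | e ∈ H ∧ ∀ v ∈ ends e, v ∈ c.supp} + 1 ≤ c.supp.encard) :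
    Nat.card (hG H ends).ConnectedComponent + H.card ≤ Fintype.card V := by
  have hfin : Finite (hG H ends).ConnectedComponent :=
    Finite.of_surjective (hG H ends).connectedComponentMk (fun c => by
      induction c using SimpleGraph.ConnectedComponent.ind with
      | _ v => exact ⟨v, rfl⟩)
  have hft : Fintype (hG H ends).ConnectedComponent := Fintype.ofFinite _
  -- the component of an element
  have hof : ∀ e, ∃ c : (hG H ends).ConnectedComponent, e ∈ H → ∀ v ∈ ends e, v ∈ c.supp := by
    intro e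
    induction hE : ends e using Sym2.ind with
    | _ x y =>
      refine ⟨(hG H ends).connectedComponentMk x, fun he v hv => ?_⟩
      rw [SimpleGraph.ConnectedComponent.mem_supp_iff, SimpleGraph.ConnectedComponent.eq]
      rw [Sym2.mem_iff] at hv
      rcases hv with rfl | rfl
      · exact SimpleGraph.Reachable.refl _
      · by_cases hxy : v = x
        · rw [hxy]
        · exact SimpleGraph.Adj.reachable ⟨hxy, e, he, by rw [hE, Sym2.eq_swap]⟩
  choose κ hκ using hof
  have h1 : H.card = ∑ c, (H.filter (fun e => κ e = c)).card :=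
    Finset.card_eq_sum_card_fiberwise (fun _ _ => Finset.mem_coe.2 (Finset.mem_univ _))
  have h2 : Fintype.card V = ∑ c : (hG H ends).ConnectedComponent,
      (Finset.univ.filter (fun v => (hG H ends).connectedComponentMk v = c)).card :=
    Finset.card_eq_sum_card_fiberwise (fun _ _ => Finset.mem_coe.2 (Finset.mem_univ _))
  rw [h1, h2, Nat.card_eq_fintype_card, Fintype.card_eq_sum_ones, ← Finset.sum_add_distrib]
  refine Finset.sum_le_sum fun c _ => ?_
  have h3 := hcomp c
  have h4 : M.Indep ((H.filter (fun e => κ e = c) : Finset α) : Set α) :=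
    hI.subset (by intro e he; exact (Finset.mem_filter.1 (Finset.mem_coe.1 he)).1)
  have h5 : ((H.filter (fun e => κ e = c)).card : ℕ∞) ≤
      M.eRk {e | e ∈ H ∧ ∀ v ∈ ends e, v ∈ c.supp} := by
    rw [← Set.encard_coe_eq_coe_finsetCard, ← h4.eRk_eq_encard]
    refine M.eRk_mono ?_
    intro e he
    obtain ⟨heH, hec⟩ := Finset.mem_filter.1 (Finset.mem_coe.1 he)
    exact ⟨heH, hec ▸ hκ e heH⟩
  have h6 : c.supp.encard = ((Finset.univ.filter
      (fun v => (hG H ends).connectedComponentMk v = c)).card : ℕ∞) := by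
    rw [← Set.encard_coe_eq_coe_finsetCard]
    congr 1
    ext v
    simp [SimpleGraph.ConnectedComponent.mem_supp_iff]
  rw [h6] at h3
  have h7 : ((H.filter (fun e => κ e = c)).card : ℕ∞) + 1 ≤ ((Finset.univ.filter
      (fun v => (hG H ends).connectedComponentMk v = c)).card : ℕ∞) :=
    (add_le_add_left h5 1).trans h3
  have h8 : (H.filter (fun e => κ e = c)).card + 1 ≤ (Finset.univ.filter
      (fun v => (hG H ends).connectedComponentMk v = c)).card := by exact_mod_cast h7
  omega

/-- Version with bad elements: `T' = H ∪ bad`, `|T'| ≥ P - a`. -/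
theorem count_bad {V : Type*} [Fintype V] {M : Matroid α} (H Bd : Finset α)
    (ends : α → Sym2 V) (hI : M.Indep (H : Set α)) (a : ℕ)
    (ha : Fintype.card V ≤ H.card + Bd.card + a)
    (hcomp : ∀ c : (hG H ends).ConnectedComponent,
      M.eRk {e | e ∈ H ∧ ∀ v ∈ ends e, v ∈ c.supp} + 1 ≤ c.supp.encard) :
    Nat.card (hG H ends).ConnectedComponent ≤ a + Bd.card := by
  have := count H ends hI hcomp
  omega

end TSTB6
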